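import Pool.Agent.Helper71.HN.SheetO
import Pool.Agent.Helper2.HN.T1Z

/-! Project HO, row T1O: the theorem over a Galois number field, S-integral points. -/

set_option autoImplicit false

namespace Pool.Agent.Helper34.HO

open Polynomial Filter Finset Pool.Agent.Helper70.SUB Pool.Agent.Helper77.SUBK
  Pool.Agent.Helper70.SUBL Pool.Agent.Helper70.SUBW Pool.Agent.Helper71.JN Pool.Agent.Helper71.HN
  Pool.Agent.Helper71.HZ Pool.Agent.Helper71.HE Pool.Agent.Helper71.HO Pool.Agent.Helper2.HZ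

section
variable {M : Type} [Field M] [NumberField M] {S : Finset ℕ} {P : PF S M}

theorem mem_sub {S S₀ : Finset ℕ} (h : S₀ ⊆ S) {o : Option ℕ} (ho : o ∈ plc S₀) : o ∈ plc S := by
  cases o with
  | none => exact mem_none
  | some p =>
    have := of_mem_some ho
    exact Finset.some_mem_insertNone.2 (h this)

/-- one place: the sizes of `x` and of the difference change by slow factors -/
theorem one_pl {o : Option ℕ} (ho : o ∈ plc S) {σ : M ≃ₐ[ℚ] M} {u l r : M} {E : ℝ} (hE : 0 ≤ E)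
    (hl0 : l ≠ 0) (hl : P.nv o (σ l) ≤ Real.exp E) (hl' : P.nv o (σ l⁻¹) ≤ Real.exp E) :
    Real.log (max 1 (P.nv o (σ (u * l⁻¹ - r)))) ≤
        Real.log (max 1 (P.nv o (σ (u - l * r)))) + E ∧
      Real.log (max 1 (P.nv o (σ u))) ≤ Real.log (max 1 (P.nv o (σ (u * l⁻¹)))) + E := by
  constructor
  · have h1 : u * l⁻¹ - r = (u - l * r) * l⁻¹ := by
      rw [sub_mul, mul_comm l r, mul_assoc, mul_inv_cancel₀ hl0, mul_one]
    rw [h1, map_mul, P.mul o ho]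
    exact (log_max_mul (P.nn _ _)).trans (add_le_add le_rfl (log_max_le hE hl'))
  · have h1 : P.nv o (σ u) = P.nv o (σ (u * l⁻¹)) * P.nv o (σ l) := by
      rw [← P.mul o ho, ← map_mul, mul_assoc, inv_mul_cancel₀ hl0, mul_one]
    rw [h1]
    exact (log_max_mul (P.nn _ _)).trans (add_le_add le_rfl (log_max_le hE hl))

/-- the size of `x` at a place outside `S₀` -/
theorem out_le (hS : ∀ p ∈ S, p.Prime) {S₀ : Finset ℕ} {m : ℕ} {x : M} (hm : m ≠ 0)
    (hx : SI S₀ ((m : M) * x)) {o : Option ℕ} (ho : o ∈ plc S) (ho' : o ∉ plc S₀)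
    (σ : M ≃ₐ[ℚ] M) : P.nv o (σ x) ≤ m := by
  have hAV := Pool.Agent.Helper15.SUB.AV
  cases o with
  | none => exact absurd mem_none ho'
  | some p =>
    have hp := of_mem_some ho
    have hp0 : p ∉ S₀ := fun h => ho' (Finset.some_mem_insertNone.2 h)
    obtain ⟨n, ⟨hn0, hn1⟩, hn2⟩ := hx
    have h3 : IsIntegral ℤ ((n : M) * ((m : M) * σ x)) := by
      have h : (n : M) * ((m : M) * σ x) = (σ : M →+* M) ((n : M) * ((m : M) * x)) := by
        simp
      rw [h]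
      exact hn2.map (σ : M →+* M).toIntAlgHom
    have h5 : P.nv (some p) ((n : M) * ((m : M) * σ x)) ≤ 1 := P.integral_le hAV hS hp h3
    have hpp : p.Prime := hS p hp
    have hn : P.nv (some p) (n : M) = 1 := by
      rw [P.natCast ho]
      have h6 : ¬ p ∣ n := fun h => hp0 (hn1 p hpp h)
      have := Fact.mk hpp
      show ((padicNorm p ((n : ℕ) : ℚ) : ℚ) : ℝ) = 1
      rw [(padicNorm.nat_eq_one_iff n).2 h6]
      norm_num
    rw [P.mul _ ho, hn, one_mul, P.mul _ ho, P.natCast ho] at h5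
    have hD0 : ((m : ℕ) : ℤ) ≠ 0 := by exact_mod_cast hm
    have h6 := (hAV.2.2 S hS).2.2.2.2.2.1 p hp (m : ℤ) hD0
    rw [Int.cast_natCast, Int.cast_natCast, Nat.abs_cast] at h6
    have h7 : (0 : ℝ) < m := by exact_mod_cast Nat.pos_of_ne_zero hm
    have h8 : 0 ≤ P.nv (some p) (σ x) := P.nn _ _
    calc P.nv (some p) (σ x) = 1 * P.nv (some p) (σ x) := (one_mul _).symm
      _ ≤ (av (some p) (m : ℚ) * m) * P.nv (some p) (σ x) := mul_le_mul_of_nonneg_right h6 h8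
      _ = (av (some p) (m : ℚ) * P.nv (some p) (σ x)) * m := by ring
      _ ≤ 1 * m := mul_le_mul_of_nonneg_right h5 h7.le
      _ = m := one_mul _

end

theorem Sm_pow {S : Finset ℕ} {n : ℕ} (h : Sm S n) (k : ℕ) : Sm S (n ^ k) :=
  ⟨pow_ne_zero _ h.1, fun q hq hd => h.2 q hq (hq.dvd_of_dvd_pow hd)⟩

/-- the data of one point -/
structure Dat (M : Type) [Field M] [NumberField M] (t : ℕ) where
  /-- the polynomial -/
  F : M[X]
  /-- the first coordinate -/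
  x : M
  /-- the second coordinate -/
  y : M
  /-- the height of the polynomial -/
  H : ℝ
  /-- a denominator -/
  m : ℕ
  /-- coefficients of the numerators -/
  c : Option ℕ → (M ≃ₐ[ℚ] M) → Fin t → M
  /-- coefficients of the denominators -/
  d : Option ℕ → (M ≃ₐ[ℚ] M) → Fin t → M
  /-- terms of the numerators -/
  a : Option ℕ → (M ≃ₐ[ℚ] M) → Fin t → M
  /-- terms of the denominators -/
  b : Option ℕ → (M ≃ₐ[ℚ] M) → Fin t → M

theorem T1O (hSLW : ST_SLW) (hSPH : ST_SPH) (hBRGO : ST_BRGO) : ST_T1O := by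
  classical
  intro M _ _ _ S S₀ P t g κ θ B hS hSS hg hθ
  by_contra hcon
  have hex : ∀ j : ℕ, ∃ s : Dat M t, (0 ≤ s.H ∧ s.F.natDegree = 2 * g + 1 ∧ s.F.Separable ∧
      s.y ^ 2 = s.F.eval s.x ∧
      (∀ i, HBZ P.emb (Real.exp (κ * (s.H + 1))) (s.F.coeff i)) ∧ s.m ≠ 0 ∧
      SI S₀ ((s.m : M) * s.x) ∧
      (∀ o ∈ plc S₀, ∀ σ, (∀ i, SV S (s.a o σ i)) ∧ (∀ i, SV S (s.b o σ i)) ∧
        (∀ i, HBZ P.emb (Real.exp (κ * (s.H + 1))) (s.c o σ i)) ∧
        (∀ i, HBZ P.emb (Real.exp (κ * (s.H + 1))) (s.d o σ i)) ∧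
        HBZ P.emb (Real.exp (B * (LamO P S₀ s.x + s.H + 1))) (∑ i, s.c o σ i * s.a o σ i) ∧
        HBZ P.emb (Real.exp (B * (LamO P S₀ s.x + s.H + 1))) (∑ i, s.d o σ i * s.b o σ i) ∧
        ∑ i, s.d o σ i * s.b o σ i ≠ 0) ∧
      (Fintype.card (M ≃ₐ[ℚ] M) : ℝ) * Real.log s.m +
        ∑ o ∈ plc S₀, ∑ σ : M ≃ₐ[ℚ] M, Real.log (max 1 (P.nv o (σ (s.x -
          s.F.coeff (2 * g + 1) * ((∑ i, s.c o σ i * s.a o σ i) /
            ∑ i, s.d o σ i * s.b o σ i) ^ 2)))) ≤ θ * LamO P S₀ s.x) ∧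
      ((j : ℝ) + 1) * (s.H + 1) < LamO P S₀ s.x := by
    intro j
    by_contra h
    apply hcon
    refine ⟨(j : ℝ) + 1, by positivity, fun F x y H m c d a b h0 h1 h2 h3 h4 h5 h6 h7 h8 => ?_⟩
    by_contra h'
    exact h ⟨⟨F, x, y, H, m, c, d, a, b⟩, ⟨h0, h1, h2, h3, h4, h5, h6, h7, h8⟩, not_le.1 h'⟩
  choose s hs hlt using hex
  obtain ⟨φ, hφ⟩ : ∃ φ : Ultrafilter ℕ, (φ : Filter ℕ) ≤ atTop := by
    refine ⟨hyperfilter ℕ, ?_⟩
    rw [← Nat.cofinite_eq_atTop]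
    exact hyperfilter_le_cofinite
  set F : ℕ → M[X] := fun j => (s j).F with hF
  set x : ℕ → M := fun j => (s j).x with hx
  set y : ℕ → M := fun j => (s j).y with hy
  set H : ℕ → ℝ := fun j => (s j).H with hH
  set m : ℕ → ℕ := fun j => (s j).m with hm
  set c : Option ℕ → (M ≃ₐ[ℚ] M) → Fin t → ℕ → M := fun o σ i j => (s j).c o σ i with hc
  set d : Option ℕ → (M ≃ₐ[ℚ] M) → Fin t → ℕ → M := fun o σ i j => (s j).d o σ i with hd
  set a : Option ℕ → (M ≃ₐ[ℚ] M) → Fin t → ℕ → M := fun o σ i j => (s j).a o σ i with ha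
  set b : Option ℕ → (M ≃ₐ[ℚ] M) → Fin t → ℕ → M := fun o σ i j => (s j).b o σ i with hb
  set p : Option ℕ → (M ≃ₐ[ℚ] M) → ℕ → M := fun o σ j => ∑ i, c o σ i j * a o σ i j with hp
  set q : Option ℕ → (M ≃ₐ[ℚ] M) → ℕ → M := fun o σ j => ∑ i, d o σ i j * b o σ i j with hq
  set L : ℕ → ℝ := fun j => LamO P S₀ (x j) with hL
  set l : ℕ → M := fun j => (F j).coeff (2 * g + 1) with hl
  have f0 : ∀ j, 0 ≤ H j := fun j => (hs j).1
  have f1 : ∀ j, (F j).natDegree = 2 * g + 1 := fun j => (hs j).2.1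
  have f2 : ∀ j, (F j).Separable := fun j => (hs j).2.2.1
  have f3 : ∀ j, y j ^ 2 = (F j).eval (x j) := fun j => (hs j).2.2.2.1
  have f4 : ∀ j i, HBZ P.emb (Real.exp (κ * (H j + 1))) ((F j).coeff i) :=
    fun j => (hs j).2.2.2.2.1
  have f5 : ∀ j, m j ≠ 0 := fun j => (hs j).2.2.2.2.2.1
  have f6 : ∀ j, SI S₀ ((m j : M) * x j) := fun j => (hs j).2.2.2.2.2.2.1
  have haS : ∀ o ∈ plc S₀, ∀ σ i j, SV S (a o σ i j) :=
    fun o ho σ i j => ((hs j).2.2.2.2.2.2.2.1 o ho σ).1 i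
  have hbS : ∀ o ∈ plc S₀, ∀ σ i j, SV S (b o σ i j) :=
    fun o ho σ i j => ((hs j).2.2.2.2.2.2.2.1 o ho σ).2.1 i
  have hcB : ∀ o ∈ plc S₀, ∀ σ i j, HBZ P.emb (Real.exp (κ * (H j + 1))) (c o σ i j) :=
    fun o ho σ i j => ((hs j).2.2.2.2.2.2.2.1 o ho σ).2.2.1 i
  have hdB : ∀ o ∈ plc S₀, ∀ σ i j, HBZ P.emb (Real.exp (κ * (H j + 1))) (d o σ i j) :=
    fun o ho σ i j => ((hs j).2.2.2.2.2.2.2.1 o ho σ).2.2.2.1 i
  have hpB : ∀ o ∈ plc S₀, ∀ σ j, HBZ P.emb (Real.exp (B * (L j + H j + 1))) (p o σ j) :=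
    fun o ho σ j => ((hs j).2.2.2.2.2.2.2.1 o ho σ).2.2.2.2.1
  have hqB : ∀ o ∈ plc S₀, ∀ σ j, HBZ P.emb (Real.exp (B * (L j + H j + 1))) (q o σ j) :=
    fun o ho σ j => ((hs j).2.2.2.2.2.2.2.1 o ho σ).2.2.2.2.2.1
  have hq0 : ∀ o ∈ plc S₀, ∀ σ j, q o σ j ≠ 0 :=
    fun o ho σ j => ((hs j).2.2.2.2.2.2.2.1 o ho σ).2.2.2.2.2.2
  have hmain : ∀ j, (Fintype.card (M ≃ₐ[ℚ] M) : ℝ) * Real.log (m j) +
      ∑ o ∈ plc S₀, ∑ σ : M ≃ₐ[ℚ] M, Real.log (max 1 (P.nv o (σ (x j -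
        l j * (p o σ j / q o σ j) ^ 2)))) ≤ θ * L j := fun j => (hs j).2.2.2.2.2.2.2.2
  have hlt' : ∀ j : ℕ, ((j : ℝ) + 1) * (H j + 1) < L j := hlt
  have hl0 : ∀ j, l j ≠ 0 := fun j => lead_ne (f1 j)
  have hLj : ∀ j : ℕ, (j : ℝ) + 1 ≤ L j ∧ H j + 1 ≤ L j := fun j => by
    have h1 := hlt' j
    have h2 := f0 j
    have h0 : (0 : ℝ) ≤ j := Nat.cast_nonneg j
    have h3 : ((j : ℝ) + 1) * 1 ≤ ((j : ℝ) + 1) * (H j + 1) :=
      mul_le_mul_of_nonneg_left (by linarith) (by positivity)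
    have h4 : 1 * (H j + 1) ≤ ((j : ℝ) + 1) * (H j + 1) :=
      mul_le_mul_of_nonneg_right (by linarith) (by linarith)
    exact ⟨by linarith, by linarith⟩
  have hL0 : ∀ j, 0 ≤ L j := fun j => by
    have h1 := (hLj j).1
    have h2 : (0 : ℝ) ≤ j := Nat.cast_nonneg j
    linarith
  -- the scale
  set X : ℕ → ℝ := fun j => Real.exp (L j) with hX
  have hXr : ∀ (j : ℕ) (e : ℝ), X j ^ e = Real.exp (e * L j) := fun j e => by
    rw [hX, mul_comm]
    exact (Real.exp_mul _ _).symm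
  have hXlog : ∀ j, Real.log (X j) = L j := fun j => Real.log_exp _
  have hXX : Tendsto X (φ : Filter ℕ) atTop := by
    refine Tendsto.mono_left ?_ hφ
    refine Real.tendsto_exp_atTop.comp ?_
    refine tendsto_atTop_mono (fun j => (hLj j).1) ?_
    exact tendsto_natCast_atTop_atTop.atTop_add tendsto_const_nhds
  have hE : ∀ K ε : ℝ, 0 < ε → ∀ᶠ j in (φ : Filter ℕ), Real.exp (K * (H j + 1)) ≤ X j ^ ε := by
    intro K ε hε
    obtain ⟨N, hN⟩ := exists_nat_ge (K / ε)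
    filter_upwards [hφ (eventually_ge_atTop N)] with j h2
    have h4 : K / ε ≤ (j : ℝ) + 1 := by
      have : (N : ℝ) ≤ j := by exact_mod_cast h2
      linarith
    rw [div_le_iff₀ hε] at h4
    rw [hXr]
    refine Real.exp_le_exp.2 ?_
    have h5 : K * (H j + 1) ≤ ((j : ℝ) + 1) * ε * (H j + 1) :=
      mul_le_mul_of_nonneg_right h4 (by linarith [f0 j])
    have h6 : ε * (((j : ℝ) + 1) * (H j + 1)) ≤ ε * L j :=
      mul_le_mul_of_nonneg_left (hlt' j).le hε.le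
    linarith
  -- slow sequences
  obtain ⟨hconst, hops, hinv, _, hsz, _, _, _, _, hint, hsums, hcd, _⟩ := hSLW M S P φ X hS hXX
  have hslH : ∀ z : ℕ → M, (∀ j, HBZ P.emb (Real.exp (κ * (H j + 1))) (z j)) →
      Slw P φ X z := by
    intro z hz ε hε
    filter_upwards [hE κ ε hε] with j hj
    obtain ⟨⟨D, h1, h2, h3⟩, h4⟩ := hz j
    exact ⟨D, h1, h2.trans hj, h3, fun σ => by rw [P.inf]; exact (h4 σ).trans hj⟩
  have hslF : ∀ i, Slw P φ X (fun j => (F j).coeff i) := fun i => hslH _ fun j => f4 j i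
  have hslpow : ∀ (z : ℕ → M) (n : ℕ), Slw P φ X z → Slw P φ X (fun j => z j ^ n) := by
    intro z n hz
    induction n with
    | zero => simpa using hconst 1
    | succ n ih => simpa [pow_succ] using (hops _ _ ih hz).2
  have hsll : Slw P φ X l := hslF (2 * g + 1)
  have hsli : Slw P φ X (fun j => (l j)⁻¹) := hinv _ hsll
  have hsla : ∀ i, Slw P φ X (fun j => co g (F j) i) := fun i =>
    (hops _ _ (hops _ _ (hslF i) (hslpow _ i hsll)).2 (hinv _ (hslpow _ (2 * g + 2) hsll))).2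
  -- moderate sums
  have hHB : ∀ z : ℕ → M, (∀ j, HBZ P.emb (Real.exp (B * (L j + H j + 1))) (z j)) →
      ∀ᶠ j in (φ : Filter ℕ), HB P (X j ^ (2 * |B|)) (z j) := by
    intro z hz
    refine Eventually.of_forall fun j v hv σ => ?_
    have hle : Real.exp (B * (L j + H j + 1)) ≤ X j ^ (2 * |B|) := by
      rw [hXr]
      refine Real.exp_le_exp.2 ?_
      have e1 := (hLj j).2
      have e2 := f0 j
      have e3 : 0 ≤ L j + H j + 1 := by linarith [hL0 j]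
      have e4 : B * (L j + H j + 1) ≤ |B| * (L j + H j + 1) :=
        mul_le_mul_of_nonneg_right (le_abs_self B) e3
      have e5 : |B| * (L j + H j + 1) ≤ |B| * (2 * L j) :=
        mul_le_mul_of_nonneg_left (by linarith) (abs_nonneg B)
      linarith
    refine (Pool.Agent.Helper94.SUBW.SP_nv hS (H := Real.exp (B * (L j + H j + 1))) ?_ hv
      σ).trans hle
    obtain ⟨⟨D, h1, h2, h3⟩, h4⟩ := hz j
    exact ⟨D, h1, h2, h3, fun τ => by rw [P.inf]; exact h4 τ⟩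
  have hpM : ∀ o ∈ plc S₀, ∀ σ, SpM P φ X (p o σ) ∧ SpM P φ X (q o σ) := by
    intro o ho σ
    constructor
    · refine hSPH M S P φ X (p o σ) _ hS hXX ?_ (hHB (p o σ) (hpB o ho σ))
      exact ⟨t, c o σ, a o σ, fun i => hslH _ (hcB o ho σ i),
        fun i => Eventually.of_forall (haS o ho σ i), Eventually.of_forall fun j => rfl⟩
    · refine hSPH M S P φ X (q o σ) _ hS hXX ?_ (hHB (q o σ) (hqB o ho σ))
      exact ⟨t, d o σ, b o σ, fun i => hslH _ (hdB o ho σ i),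
        fun i => Eventually.of_forall (hbS o ho σ i), Eventually.of_forall fun j => rfl⟩
  -- denominators
  set x' : ℕ → M := fun j => x j * (l j)⁻¹ with hx'
  set y' : ℕ → M := fun j => y j * ((l j)⁻¹) ^ (g + 1) with hy'
  have hSx : IntT S₀ φ X (fun j => (m j : M) * x' j) := by
    intro ε hε
    filter_upwards [hsli ε hε] with j h1
    obtain ⟨D, h2, h3, h4, _⟩ := h1
    obtain ⟨n, hn, hn'⟩ := f6 j
    refine ⟨D, h2, h3, n, hn, ?_⟩
    have h5 : (n : M) * ((D : M) * ((m j : M) * x' j)) =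
        ((n : M) * ((m j : M) * x j)) * ((D : M) * (l j)⁻¹) := by
      rw [hx']
      ring
    rw [h5]
    exact hn'.mul h4
  have hSy : IntT S₀ φ X (fun j => (m j : M) ^ (g + 1) * y' j) := by
    intro ε hε
    filter_upwards [hcd ℕ (range (2 * g + 2)) (fun i j => (F j).coeff i) (fun i _ => hslF i)
      (ε / 2) (by linarith), hslpow _ (g + 1) hsli (ε / 2) (by linarith)] with j h1 h2
    obtain ⟨D, h3, h4, h5⟩ := h1
    obtain ⟨D', h6, h7, h8, _⟩ := h2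
    obtain ⟨n, hn, hn'⟩ := f6 j
    refine ⟨D * D', mul_ne_zero h3 h6, ?_, n ^ (g + 1), Sm_pow hn _, ?_⟩
    · push_cast
      calc (D : ℝ) * D' ≤ X j ^ (ε / 2) * X j ^ (ε / 2) :=
            mul_le_mul h4 h7 (Nat.cast_nonneg _) (Real.rpow_nonneg (Real.exp_pos _).le _)
        _ = X j ^ ε := by
            rw [← Real.rpow_add (Real.exp_pos _)]
            congr 1
            ring
    · have h9 : ((n ^ (g + 1) : ℕ) : M) * (((D * D' : ℕ) : M) * ((m j : M) ^ (g + 1) * y' j)) =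
          ((D : M) * (((n * m j : ℕ) : M) ^ (g + 1) * y j)) *
            ((D' : M) * ((l j)⁻¹) ^ (g + 1)) := by
        rw [hy']
        push_cast
        ring
      rw [h9]
      have h10 : IsIntegral ℤ (((n * m j : ℕ) : M) * x j) := by
        push_cast
        rw [mul_assoc]
        exact hn'
      exact (int_y (f1 j) h5 h10 (f3 j)).mul h8
  -- the numerical part
  have hSc : 1 ≤ ((plc S₀).card : ℝ) := by
    have : 0 < (plc S₀).card := Finset.card_pos.2 ⟨none, mem_none⟩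
    exact_mod_cast this
  set k : ℝ := ((plc S₀).card : ℝ) * (Fintype.card (M ≃ₐ[ℚ] M) : ℝ) with hk
  have hc1 : 1 ≤ (Fintype.card (M ≃ₐ[ℚ] M) : ℝ) := by
    have : 0 < Fintype.card (M ≃ₐ[ℚ] M) := Fintype.card_pos
    exact_mod_cast this
  have hk1 : 1 ≤ k := by
    rw [hk]
    nlinarith
  obtain ⟨ε, hε⟩ : ∃ ε : ℝ, ε = (1 / 2 - θ) / (4 * k) := ⟨_, rfl⟩
  have hε0 : 0 < ε := by
    rw [hε]
    exact div_pos (by linarith) (by linarith)
  have hkε : k * ε = (1 / 2 - θ) / 4 := by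
    rw [hε]
    field_simp
  have hszl : ∀ δ : ℝ, 0 < δ → ∀ᶠ j in (φ : Filter ℕ), ∀ o ∈ plc S, ∀ σ : M ≃ₐ[ℚ] M,
      P.nv o (σ (l j)) ≤ X j ^ δ ∧ P.nv o (σ (l j)⁻¹) ≤ X j ^ δ := by
    intro δ hδ
    filter_upwards [hsll δ hδ, hsli δ hδ] with j h1 h2 o ho σ
    exact ⟨Pool.Agent.Helper94.SUBW.SP_nv hS h1 ho σ, Pool.Agent.Helper94.SUBW.SP_nv hS h2 ho σ⟩
  have hlogm : ∀ j, 0 ≤ Real.log (m j) := fun j => Real.log_natCast_nonneg _
  have hsum0 : ∀ j, 0 ≤ ∑ o ∈ plc S₀, ∑ σ : M ≃ₐ[ℚ] M, Real.log (max 1 (P.nv o (σ (x j -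
      l j * (p o σ j / q o σ j) ^ 2)))) := fun j =>
    sum_nonneg fun o _ => sum_nonneg fun σ _ => log_max_nonneg _
  refine hBRGO M S S₀ P φ g (fun i j => co g (F j) i) m x' y' X p q 2 ((1 / 2 - θ) / 2) hS hSS hg
    (by linarith) hXX hpM (fun i _ => hsla i) hSx hSy ?_
  filter_upwards [hszl ε hε0, hszl 1 one_pos] with j h1 h2
  have hm1 : Real.log (m j) ≤ L j := by
    have h3 := hmain j
    have h4 := hsum0 j
    have h5 := hlogm j
    have h6 := hL0 j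
    have h7 : 1 * Real.log (m j) ≤ (Fintype.card (M ≃ₐ[ℚ] M) : ℝ) * Real.log (m j) :=
      mul_le_mul_of_nonneg_right hc1 h5
    have h8 : 0 ≤ (1 / 2 - θ) * L j := mul_nonneg (by linarith) h6
    linarith
  have hmX : (m j : ℝ) ≤ X j := by
    have h3 : (0 : ℝ) < m j := by exact_mod_cast Nat.pos_of_ne_zero (f5 j)
    rw [← Real.exp_log h3]
    exact Real.exp_le_exp.2 hm1
  have hX1 : 1 ≤ X j := Real.one_le_exp (hL0 j)
  have hX2 : X j ^ (2 : ℝ) = X j * X j := by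
    rw [Real.rpow_two]
    ring
  refine ⟨pol_sep (f1 j) (f2 j), pol_ev (f1 j) (f3 j), f5 j, ?_, fun o ho σ => ?_,
    fun o ho σ => hq0 o ho σ j, ?_⟩
  · rw [hX2]
    nlinarith
  · have e1 : P.nv o (σ (x' j)) = P.nv o (σ (x j)) * P.nv o (σ (l j)⁻¹) := by
      rw [← P.mul o ho, ← map_mul]
    rw [e1, hX2]
    refine mul_le_mul ?_ ?_ (P.nn _ _) (by linarith)
    · by_cases ho' : o ∈ plc S₀
      · have h3 : Real.log (max 1 (P.nv o (σ (x j)))) ≤ L j := by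
          rw [hL]
          refine (single_le_sum (f := fun σ : M ≃ₐ[ℚ] M => Real.log (max 1 (P.nv o (σ (x j)))))
            (fun τ _ => log_max_nonneg _) (mem_univ σ)).trans ?_
          exact single_le_sum (f := fun o => ∑ σ : M ≃ₐ[ℚ] M,
            Real.log (max 1 (P.nv o (σ (x j)))))
            (fun o _ => sum_nonneg fun τ _ => log_max_nonneg _) ho'
        have h4 : (0 : ℝ) < max 1 (P.nv o (σ (x j))) := lt_of_lt_of_le one_pos (le_max_left _ _)
        refine (le_max_right 1 _).trans ?_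
        rw [← Real.exp_log h4]
        exact Real.exp_le_exp.2 h3
      · exact (out_le hS (f5 j) (f6 j) ho ho' σ).trans hmX
    · exact ((h2 o ho σ).2).trans (by rw [Real.rpow_one])
  · rw [hXlog]
    have hεL : 0 ≤ ε * L j := mul_nonneg hε0.le (hL0 j)
    have h3 : ∀ o ∈ plc S₀, ∀ σ : M ≃ₐ[ℚ] M,
        Real.log (max 1 (P.nv o (σ (x' j - (p o σ j / q o σ j) ^ 2)))) ≤
          Real.log (max 1 (P.nv o (σ (x j - l j * (p o σ j / q o σ j) ^ 2)))) + ε * L j ∧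
        Real.log (max 1 (P.nv o (σ (x j)))) ≤
          Real.log (max 1 (P.nv o (σ (x' j)))) + ε * L j := by
      intro o ho σ
      refine one_pl (mem_sub hSS ho) hεL (hl0 j) ?_ ?_
      · rw [← hXr]
        exact (h1 o (mem_sub hSS ho) σ).1
      · rw [← hXr]
        exact (h1 o (mem_sub hSS ho) σ).2
    have h4 : ∑ o ∈ plc S₀, ∑ σ : M ≃ₐ[ℚ] M,
        Real.log (max 1 (P.nv o (σ (x' j - (p o σ j / q o σ j) ^ 2)))) ≤
        ∑ o ∈ plc S₀, ∑ σ : M ≃ₐ[ℚ] M, Real.log (max 1 (P.nv o (σ (x j -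
          l j * (p o σ j / q o σ j) ^ 2)))) + k * (ε * L j) := by
      refine (sum_le_sum fun o ho => sum_le_sum fun σ _ => (h3 o ho σ).1).trans (le_of_eq ?_)
      simp only [sum_add_distrib, sum_const, card_univ, nsmul_eq_mul]
      rw [hk]
      ring
    have h5 : L j ≤ ∑ o ∈ plc S₀, ∑ σ : M ≃ₐ[ℚ] M, Real.log (max 1 (P.nv o (σ (x' j)))) +
        k * (ε * L j) := by
      refine (sum_le_sum fun o ho => sum_le_sum fun σ _ => (h3 o ho σ).2).trans (le_of_eq ?_)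
      simp only [sum_add_distrib, sum_const, card_univ, nsmul_eq_mul]
      rw [hk]
      ring
    have h6 := hmain j
    have h7 : k * (ε * L j) = (1 / 2 - θ) / 4 * L j := by
      rw [← mul_assoc, hkε]
    have h8 : 0 ≤ (1 / 2 - θ) * L j := mul_nonneg (by linarith) (hL0 j)
    rw [h7] at h4 h5
    linarith

end Pool.Agent.Helper34.HO
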